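import Pool.Agent.H77.GR.Stm
import Pool.Agent.H27.TF.Cnt
import Pool.Agent.H27.TF.Sai
import Pool.Agent.H22.TF.Mdt
import Pool.Agent.H77.TF.Det
import Pool.Agent.H77.TF.Pri

/-!
# Project GR, module FQG: the basis over the fraction field
-/

set_option autoImplicit false

open MvPolynomial Module Pool.Agent.H77.TF Pool.Agent.H77.GR

namespace Pool.Agent.H6.GR

/-- the determinant of a basis is nonzero; zero forms are allowed -/
theorem det_basis' {K : Type} [Field K] {l : ℕ} {ν : Type} [Fintype ν] (A : ν → Fin l → K)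
    (b : Basis (Fin l) (MvPolynomial (Fin l) K) (LD A)) :
    (Matrix.of fun j => (b j : Fin l → MvPolynomial (Fin l) K)).det ≠ 0 := by
  classical
  intro hdet
  obtain ⟨Q, hQd⟩ : ∃ Q : MvPolynomial (Fin l) K, Q = ∏ k, (if A k = 0 then 1 else lin (A k)) :=
    ⟨_, rfl⟩
  have hQ : Q ≠ 0 := by
    rw [hQd, Finset.prod_ne_zero_iff]
    intro k _
    split_ifs with h
    · exact one_ne_zero
    · exact lin_ne_zero h
  have hmem : ∀ i : Fin l, Pi.single i Q ∈ LD A := by
    intro i k
    have h1 : evl (A k) (Pi.single i Q) = C (A k i) * Q := by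
      unfold evl
      rw [Finset.sum_eq_single i]
      · rw [Pi.single_eq_same]
      · intro j _ hj
        rw [Pi.single_eq_of_ne hj, mul_zero]
      · exact fun h => absurd (Finset.mem_univ _) h
    rw [h1]
    by_cases h : A k = 0
    · rw [h]
      simp
    · refine dvd_mul_of_dvd_right ?_ _
      rw [hQd]
      have := Finset.dvd_prod_of_mem (fun k => if A k = 0 then 1 else lin (A k))
        (Finset.mem_univ k)
      rwa [if_neg h] at this
  let R : Matrix (Fin l) (Fin l) (MvPolynomial (Fin l) K) := Matrix.of fun i j =>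
    b.repr ⟨_, hmem i⟩ j
  have h1 : R * (Matrix.of fun j => (b j : Fin l → MvPolynomial (Fin l) K)) =
      Q • (1 : Matrix (Fin l) (Fin l) (MvPolynomial (Fin l) K)) := by
    ext1 i i'
    rw [Matrix.mul_apply]
    have h2 := congrArg (fun w : LD A => (w : Fin l → MvPolynomial (Fin l) K) i')
      (b.sum_repr ⟨_, hmem i⟩)
    simp only [] at h2
    rw [AddSubmonoidClass.coe_finsetSum, Finset.sum_apply] at h2
    rw [Matrix.smul_apply, smul_eq_mul]
    refine Eq.trans ?_ (h2.trans ?_)
    · rfl
    · by_cases h : i = i'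
      · subst h
        rw [Matrix.one_apply_eq, mul_one]
        exact Pi.single_eq_same _ _
      · rw [Matrix.one_apply_ne h, mul_zero]
        exact Pi.single_eq_of_ne (Ne.symm h) _
  have h4 := congrArg Matrix.det h1
  rw [Matrix.det_mul, hdet, mul_zero, Matrix.det_smul, Matrix.det_one, mul_one] at h4
  exact pow_ne_zero _ hQ h4.symm

theorem map_linR {R R' : Type} [CommRing R] [CommRing R'] (f : R →+* R') (a : Fin 3 → R) :
    MvPolynomial.map f (linR a) = linR (fun j => f (a j)) := by
  unfold linR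
  rw [map_sum]
  exact Finset.sum_congr rfl fun i _ => by rw [map_mul, map_C, map_X]

theorem map_evlR {R R' : Type} [CommRing R] [CommRing R'] (f : R →+* R') (a : Fin 3 → R)
    (v : Fin 3 → MvPolynomial (Fin 3) R) :
    MvPolynomial.map f (evlR a v) = evlR (fun j => f (a j)) (mapV f v) := by
  unfold evlR mapV
  rw [map_sum]
  exact Finset.sum_congr rfl fun i _ => by rw [map_mul, map_C]

theorem map_det {R R' : Type} [CommRing R] [CommRing R'] (f : R →+* R')
    (w : Fin 3 → Fin 3 → MvPolynomial (Fin 3) R) :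
    MvPolynomial.map f (Matrix.of w).det = (Matrix.of fun k => mapV f (w k)).det := by
  rw [RingHom.map_det]
  rfl

theorem fqg : S_FQG := by
  classical
  intro R _ _ _ F _ _ _ ν _ A e hs he hsum hL
  obtain ⟨b, hb⟩ := he
  have h1 : ∀ j, ∃ V ∈ LRm A (e j), mapV (IsLocalRing.residue R) V =
      (b j : Fin 3 → MvPolynomial (Fin 3) (IsLocalRing.ResidueField R)) := by
    intro j
    refine hL (e j) _ ?_
    rw [mem_LRm]
    exact ⟨(b j).2, hb j⟩
  choose V hV hVb using h1
  have hinj : Function.Injective (MvPolynomial.map (σ := Fin 3) (algebraMap R F)) :=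
    map_injective _ (IsFractionRing.injective R F)
  have hd0 : (Matrix.of V).det ≠ 0 := by
    intro h0
    have h2 := map_det (IsLocalRing.residue R) V
    rw [h0, map_zero] at h2
    refine det_basis' _ b ?_
    rw [h2]
    congr 2
    funext j
    exact (hVb j).symm
  have hW0 : (Matrix.of fun k => mapV (algebraMap R F) (V k)).det ≠ 0 := by
    rw [← map_det]
    intro h0
    exact hd0 (hinj (h0.trans (map_zero _).symm))
  have hWm : ∀ k, mapV (algebraMap R F) (V k) ∈ LD (mapA (algebraMap R F) A) := by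
    intro k i
    have h2 := map_dvd (MvPolynomial.map (σ := Fin 3) (algebraMap R F)) ((hV k).1 i)
    rw [map_linR, map_evlR] at h2
    exact h2
  have hWh : ∀ k i, (mapV (algebraMap R F) (V k) i).IsHomogeneous (e k) := by
    intro k i
    exact ((hV k).2 i).map _
  have hdvd : ∏ i, lin (mapA (algebraMap R F) A i) ∣
      (Matrix.of fun k => mapV (algebraMap R F) (V k)).det := by
    refine Pool.Agent.H27.TF.prod_dvd pri hs _ fun i _ => ?_
    exact det F 3 _ (hs.1 i) _ fun k => hWm k i
  have hhd : (Matrix.of fun k => mapV (algebraMap R F) (V k)).det.IsHomogeneous (Fintype.card ν) := by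
    rw [← hsum]
    exact Pool.Agent.H27.TF.det_hom hWh
  have hhp : (∏ i, lin (mapA (algebraMap R F) A i)).IsHomogeneous (Fintype.card ν) := by
    have h2 := IsHomogeneous.prod Finset.univ (fun i => lin (mapA (algebraMap R F) A i))
      (fun _ => 1) (fun i _ => Pool.Agent.H27.TF.lin_hom _)
    rwa [Finset.sum_const, smul_eq_mul, mul_one, Finset.card_univ] at h2
  obtain ⟨c, hc, hdet⟩ := Pool.Agent.H22.TF.eq_C_mul hW0 hhd hhp hdvd
  obtain ⟨b', hb'⟩ := Pool.Agent.H27.TF.sai pri det F 3 ν _ hs _ c hc hWm hdet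
  refine ⟨b', fun j i => ?_⟩
  rw [hb' j]
  exact hWh j i

end Pool.Agent.H6.GR
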